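import Pool.Agent.V11319.MCDataS1748

/-!
The strong MC number `1748` has an MC-circle whose lattice points have no mirror symmetry.
The notions `onCircle`, `IsMCCircle`, `IsMC`, `IsStrongMC` are in `Pool.Agent.V11319.MCDefs`.
-/

namespace Pool.Agent.Results.MP_719c9c_nt.NoMirror

open Pool.Agent.V11319.MC

/-- The reflections of the plane that map the lattice onto itself, acting on lattice points.
The four cases have the axes `x = c / 2`, `y = c / 2`, `y = x + c`, `y = -x + c` with `c` an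
integer. -/
def IsLatticeReflection (ρ : ℤ × ℤ → ℤ × ℤ) : Prop :=
  ∃ c : ℤ, (∀ p, ρ p = (c - p.1, p.2)) ∨ (∀ p, ρ p = (p.1, c - p.2)) ∨
    (∀ p, ρ p = (p.2 - c, p.1 + c)) ∨ (∀ p, ρ p = (c - p.2, c - p.1))

/-- The set `L` of lattice points has a mirror symmetry. -/
def HasMirror (L : Set (ℤ × ℤ)) : Prop := ∃ ρ, IsLatticeReflection ρ ∧ ρ '' L = L

lemma noMirror : ¬ HasMirror {p : ℤ × ℤ | p ∈ LS1748} := by
  rintro ⟨ρ, ⟨c, hc⟩, himg⟩
  have key : ∀ p : ℤ × ℤ, p ∈ LS1748 → ρ p ∈ LS1748 := by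
    intro p hp
    have : ρ p ∈ ρ '' {p : ℤ × ℤ | p ∈ LS1748} := ⟨p, hp, rfl⟩
    rw [himg] at this
    exact this
  have h1 := key (-23, 4) (by decide)
  have h2 := key (-21, -10) (by decide)
  have h3 := key (-14, 19) (by decide)
  have h4 := key (24, 0) (by decide)
  rcases hc with hc | hc | hc | hc
  all_goals
    rw [hc] at h1 h2 h3 h4
    simp only [LS1748, List.mem_cons, Prod.mk.injEq, List.not_mem_nil, or_false] at h1 h2 h3 h4
    omega

/-- The number `1748` is a strong MC number, the circle with centre `(9/26, 5/26)` and radius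
`√(189125/338)` is an MC-circle of it, and no lattice-invariant reflection maps the set of lattice
points on that circle onto itself. -/
theorem result : IsStrongMC 1748 ∧ IsMCCircle 1748 (9 / 26) (5 / 26) (Real.sqrt (189125 / 338)) ∧
    ¬ HasMirror (onCircle (9 / 26) (5 / 26) (Real.sqrt (189125 / 338))) := by
  have F := factsS1748
  have e1 : (((9 : ℕ) : ℝ)) / ((26 : ℕ) : ℝ) = 9 / 26 := by norm_num
  have e2 : (((5 : ℕ) : ℝ)) / ((26 : ℕ) : ℝ) = 5 / 26 := by norm_num
  have e3 : (((378250 : ℕ) : ℝ)) / ((26 : ℕ) : ℝ) ^ 2 = 189125 / 338 := by norm_num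
  have h1 := F.isMCCircle (by norm_num)
  have h2 := F.onCircle_eq
  rw [e1, e2, e3] at h1 h2
  refine ⟨⟨⟨_, _, _, h1⟩, not_isMC_1749⟩, h1, ?_⟩
  rw [h2]
  exact noMirror

end Pool.Agent.Results.MP_719c9c_nt.NoMirror
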